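import Mathlib

set_option autoImplicit false

namespace Pool.Agent.H.MP_71b3bb_an

open scoped unitInterval
open Filter Topology

abbrev D : Type := Metric.closedBall (0 : ℂ) 1
abbrev S : Type := D × I

def Z : C(S, ℂ) := ⟨fun s => s.1, by fun_prop⟩
def T : C(S, ℂ) := ⟨fun s => ((s.2 : ℝ) : ℂ), by fun_prop⟩

noncomputable def A : Subalgebra ℂ C(S, ℂ) := (Algebra.adjoin ℂ {Z, T}).topologicalClosure

theorem A_closed : IsClosed (A : Set C(S, ℂ)) := Subalgebra.isClosed_topologicalClosure _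

theorem Z_mem : Z ∈ A := Subalgebra.le_topologicalClosure _ (Algebra.subset_adjoin (by simp))
theorem T_mem : T ∈ A := Subalgebra.le_topologicalClosure _ (Algebra.subset_adjoin (by simp))

theorem normD (z : D) : ‖(z : ℂ)‖ ≤ 1 := mem_closedBall_zero_iff.mp z.2

theorem A_ind (P : Submodule ℂ C(S, ℂ)) (hc : IsClosed (P : Set C(S, ℂ)))
    (h : ∀ k j : ℕ, Z ^ k * T ^ j ∈ P) (f : C(S, ℂ)) (hf : f ∈ A) : f ∈ P := by
  have hf' : f ∈ closure ((Algebra.adjoin ℂ {Z, T} : Subalgebra ℂ C(S, ℂ)) : Set C(S, ℂ)) := hf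
  refine closure_minimal (fun g hg => ?_) hc hf'
  have h1 : g ∈ Subalgebra.toSubmodule (Algebra.adjoin ℂ {Z, T}) := hg
  rw [Algebra.adjoin_eq_span] at h1
  refine Submodule.span_le.mpr (fun u hu => ?_) h1
  obtain ⟨k, j, rfl⟩ := (Submonoid.mem_closure_pair _ _ _).mp hu
  exact h k j

theorem mon_mem (k j : ℕ) : Z ^ k * T ^ j ∈ A := mul_mem (pow_mem Z_mem k) (pow_mem T_mem j)

theorem chars (φ : A →L[ℂ] ℂ) (h0 : φ ≠ 0) (hm : ∀ f g, φ (f * g) = φ f * φ g) :
    ∃! s : S, ∀ f : A, φ f = (f : C(S, ℂ)) s := by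
  have := A_closed.completeSpace_coe
  have h1 : φ 1 = 1 := by
    by_contra h
    refine h0 (ContinuousLinearMap.ext fun f => ?_)
    have := hm f 1
    rw [mul_one] at this
    have h2 : φ f * (1 - φ 1) = 0 := by linear_combination this
    exact (mul_eq_zero.mp h2).resolve_right (sub_ne_zero.mpr (Ne.symm h))
  let ψ : A →ₐ[ℂ] ℂ := AlgHom.ofLinearMap φ.toLinearMap h1 hm
  have hψ : ∀ f, ψ f = φ f := fun f => rfl
  have hn : ∀ (f : A) (c : ℝ), 0 ≤ c → (∀ s, ‖(f : C(S, ℂ)) s‖ ≤ c) → ‖ψ f‖ ≤ c := by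
    intro f c hc h
    have a := AlgHom.norm_apply_le_self_mul_norm_one ψ f
    have b : ‖f‖ ≤ c := (ContinuousMap.norm_le _ hc).mpr h
    have d : ‖(1 : A)‖ ≤ 1 := (ContinuousMap.norm_le (1 : C(S, ℂ)) zero_le_one).mpr (by simp)
    exact a.trans ((mul_le_mul b d (norm_nonneg (1 : C(S, ℂ))) hc).trans_eq (mul_one c))
  have ha : ‖ψ ⟨Z, Z_mem⟩‖ ≤ 1 := hn _ 1 zero_le_one fun s => normD s.1
  set b := ψ ⟨T, T_mem⟩ with hb
  have hb2 : ∀ y : ℝ, (b.re - 1 / 2) ^ 2 + (b.im - y) ^ 2 ≤ 1 / 4 + y ^ 2 := by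
    intro y
    have h := hn (⟨T, T_mem⟩ + algebraMap ℂ A ⟨-1 / 2, -y⟩) (Real.sqrt (1 / 4 + y ^ 2))
      (Real.sqrt_nonneg _) fun s => by
        apply Real.le_sqrt_of_sq_le
        have e : ((⟨T, T_mem⟩ + algebraMap ℂ A ⟨-1 / 2, -y⟩ : A) : C(S, ℂ)) s =
            ((s.2 : ℝ) : ℂ) + ⟨-1 / 2, -y⟩ := by simp [T]
        rw [e, Complex.sq_norm, Complex.normSq_apply]
        simp
        nlinarith [s.2.2.1, s.2.2.2]
    rw [map_add, AlgHom.commutes, ← hb] at h
    have h2 := (Real.le_sqrt (norm_nonneg _) (by positivity)).mp h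
    rw [Complex.sq_norm, Complex.normSq_apply] at h2
    simp at h2
    nlinarith
  have him : b.im = 0 := by
    by_contra h
    have := hb2 (-1 / b.im)
    have e : b.im * (-1 / b.im) = -1 := by field_simp
    nlinarith [sq_nonneg (b.re - 1 / 2), sq_nonneg b.im]
  have hre : b.re ∈ I := by
    have := hb2 0
    constructor <;> nlinarith [sq_nonneg b.im]
  let s : S := (⟨ψ ⟨Z, Z_mem⟩, by simpa using ha⟩, ⟨b.re, hre⟩)
  have eZ : ψ ⟨Z, Z_mem⟩ = Z s := rfl
  have eT : ψ ⟨T, T_mem⟩ = T s := by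
    exact Complex.ext rfl him
  refine ⟨s, fun f => ?_, fun s' hs' => ?_⟩
  · let P : Submodule ℂ C(S, ℂ) := Submodule.map A.val.toLinearMap
      (LinearMap.eqLocus φ.toLinearMap
        ((ContinuousMap.evalCLM ℂ s).toLinearMap.comp A.val.toLinearMap))
    have hP : IsClosed (P : Set C(S, ℂ)) := A_closed.isClosedMap_subtype_val _
      (isClosed_eq φ.continuous ((continuous_eval_const s).comp continuous_subtype_val))
    obtain ⟨g, hg, e⟩ := A_ind P hP (fun k j =>
      ⟨((⟨Z, Z_mem⟩ : A) ^ k * (⟨T, T_mem⟩ : A) ^ j : A), by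
      change ψ _ = (Z ^ k * T ^ j) s
      rw [map_mul, map_pow, map_pow, eZ, eT]
      simp, rfl⟩) f f.2
    have e2 : g = f := Subtype.ext e
    subst e2
    exact hg
  · have e1 := hs' ⟨Z, Z_mem⟩
    have e2 := hs' ⟨T, T_mem⟩
    rw [← hψ] at e1 e2
    refine Prod.ext (Subtype.ext e1.symm) (Subtype.ext ?_)
    exact (congrArg Complex.re e2).symm

theorem log_near (g : C(S, ℂ)) (hg : g ∈ A) (h : ‖g - 1‖ < 1) :
    ∃ h ∈ A, ∀ s, g s = Complex.exp (h s) := by
  let a : ℕ → C(S, ℂ) := fun n => ((-1) ^ (n + 1) / n : ℂ) • (g - 1) ^ n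
  have hs : Summable a := by
    refine (summable_geometric_of_lt_one (norm_nonneg _) h).of_norm_bounded_eventually_nat ?_
    filter_upwards [eventually_gt_atTop 0] with n hn
    have h1 : ‖((-1) ^ (n + 1) / n : ℂ)‖ ≤ 1 := by
      simp only [norm_div, norm_pow, norm_neg, norm_one, one_pow, Complex.norm_natCast]
      exact div_le_one_of_le₀ (by exact_mod_cast hn) (by positivity)
    simp only [a, norm_smul]
    exact (mul_le_of_le_one_left (norm_nonneg _) h1).trans (norm_pow_le' _ hn)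
  refine ⟨∑' n, a n, tsum_mem A_closed fun n => A.smul_mem (pow_mem (sub_mem hg (one_mem _)) n) _,
    fun s => ?_⟩
  have h2 : ‖g s - 1‖ < 1 := ((g - 1).norm_coe_le_norm s).trans_lt h
  have h3 := (ContinuousMap.evalCLM ℂ s).hasSum hs.hasSum
  have h4 := Complex.hasSum_taylorSeries_log h2
  have h5 : (∑' n, a n) s = Complex.log (1 + (g s - 1)) := by
    refine HasSum.unique h3 ?_
    convert h4 using 2 with n
    simp [a]
    ring
  rw [h5, Complex.exp_log]
  · ring
  · intro e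
    have : g s - 1 = -1 := by linear_combination e
    simp [this] at h2

def R : C(I × S, S) :=
  ⟨fun p => (⟨((p.1 : ℝ) : ℂ) * p.2.1, by
    have := normD p.2.1
    simp only [Metric.mem_closedBall, dist_zero_right, norm_mul, Complex.norm_real,
      Real.norm_of_nonneg p.1.2.1]
    exact mul_le_one₀ p.1.2.2 (norm_nonneg _) this⟩, p.1 * p.2.2), by fun_prop⟩

theorem R_mem (r : I) (f : C(S, ℂ)) (hf : f ∈ A) : f.comp (R.curry r) ∈ A := by
  let L : C(S, ℂ) →L[ℂ] C(S, ℂ) := ContinuousMap.compCLM ℂ ℂ (R.curry r)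
  refine A_ind (A.toSubmodule.comap L.toLinearMap) (A_closed.preimage L.continuous)
    (fun k j => ?_) f hf
  have : L (Z ^ k * T ^ j) = (((r : ℝ) : ℂ) ^ (k + j)) • (Z ^ k * T ^ j) := by
    ext s
    simp [L, R, Z, T]
    ring
  change L _ ∈ A
  rw [this]
  exact A.smul_mem (mon_mem k j) _

theorem logs (f : C(S, ℂ)) (hf : f ∈ A) (g : C(S, ℂ)) (hg : g ∈ A) (hfg : f * g = 1) :
    ∃ h ∈ A, ∀ s, f s = Complex.exp (h s) := by
  let F : I → C(S, ℂ) := fun r => f.comp (R.curry r)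
  have hF : Continuous F := (ContinuousMap.continuous_postcomp f).comp R.curry.continuous
  have fg : ∀ s, f s * g s = 1 := fun s => by simpa using DFunLike.congr_fun hfg s
  let E : I → Prop := fun r => ∃ h ∈ A, ∀ s, F r s = Complex.exp (h s)
  have key : ∀ x y : I, ‖F y - F x‖ * ‖g‖ < 1 → E x → E y := by
    rintro x y hxy ⟨h, hA, hh⟩
    obtain ⟨h2, hA2, hh2⟩ := log_near (F y * g.comp (R.curry x))
      (mul_mem (R_mem y f hf) (R_mem x g hg)) (by
        have e : F y * g.comp (R.curry x) - 1 = (F y - F x) * g.comp (R.curry x) := by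
          ext s
          have := fg (R.curry x s)
          simp only [F, ContinuousMap.sub_apply, ContinuousMap.mul_apply, ContinuousMap.comp_apply,
            ContinuousMap.one_apply]
          linear_combination this
        rw [e]
        refine ((norm_mul_le _ _).trans (mul_le_mul_of_nonneg_left ?_ (norm_nonneg _))).trans_lt hxy
        exact (ContinuousMap.norm_le _ (norm_nonneg _)).mpr fun s => g.norm_coe_le_norm _)
    refine ⟨h + h2, add_mem hA hA2, fun s => ?_⟩
    rw [ContinuousMap.add_apply, Complex.exp_add, ← hh, ← hh2]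
    have := fg (R.curry x s)
    simp only [F, ContinuousMap.mul_apply, ContinuousMap.comp_apply]
    linear_combination (-f (R.curry y s)) * this
  have h01 : E 0 → E 1 := by
    refine PreconnectedSpace.induction₂' (fun x y => E x → E y) (fun x => ?_)
      ⟨fun a b c h1 h2 h => h2 (h1 h)⟩ 0 1
    have c : Continuous fun y => ‖F y - F x‖ * ‖g‖ := by fun_prop
    have := (c.tendsto x).eventually (gt_mem_nhds (show ‖F x - F x‖ * ‖g‖ < 1 by simp))
    filter_upwards [this] with y hy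
    exact ⟨key x y hy, key y x (by rwa [norm_sub_rev])⟩
  let o : S := (⟨0, by simp⟩, 0)
  obtain ⟨h, hA, hh⟩ := h01 ⟨algebraMap ℂ _ (Complex.log (f o)), A.algebraMap_mem _, fun s => by
    have e : R.curry 0 s = o := by simp [R, o]
    simp only [F, ContinuousMap.comp_apply, e, algebraMap_apply, smul_eq_mul, mul_one]
    rw [Complex.exp_log (left_ne_zero_of_mul_eq_one (fg o))]⟩
  refine ⟨h, hA, fun s => ?_⟩
  have e : R.curry 1 s = s := by simp [R]
  rw [← hh]
  simp only [F, ContinuousMap.comp_apply, e]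

end Pool.Agent.H.MP_71b3bb_an
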