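import Mathlib
import Pool.Agent.H.MP_71b3bb_an.Alg

set_option autoImplicit false

namespace Pool.Agent.H.MP_71b3bb_an

open scoped unitInterval NNReal ENNReal
open Filter Topology MeasureTheory

section
variable {X : Type} [TopologicalSpace X] [CompactSpace X] [MeasurableSpace X]
  [OpensMeasurableSpace X] (ν : Measure X) [IsFiniteMeasure ν]

theorem intg (f : C(X, ℂ)) : Integrable f ν :=
  (BoundedContinuousFunction.mkOfCompact f).integrable ν

noncomputable def intL : C(X, ℂ) →L[ℂ] ℂ :=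
  LinearMap.mkContinuous
    { toFun := fun f => ∫ x, f x ∂ν
      map_add' := fun f g => integral_add (intg ν f) (intg ν g)
      map_smul' := fun c f => integral_smul c f } (ν.real Set.univ) fun f =>
    (norm_integral_le_of_norm_le_const (C := ‖f‖)
      (Eventually.of_forall f.norm_coe_le_norm)).trans_eq (mul_comm _ _)

theorem intL_apply (f : C(X, ℂ)) : intL ν f = ∫ x, f x ∂ν := rfl

end

noncomputable def e (θ : I) : D :=
  ⟨Complex.exp ((2 * Real.pi * θ : ℝ) * Complex.I), by
    rw [mem_closedBall_zero_iff, Complex.norm_exp_ofReal_mul_I]⟩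

theorem e_cont : Continuous e := by
  unfold e
  fun_prop

noncomputable def m : Measure D := Measure.map e volume

instance : IsProbabilityMeasure m := Measure.isProbabilityMeasure_map e_cont.aemeasurable

def o : D := ⟨0, by simp⟩

theorem m_pow (k : ℕ) : ∫ z, (z : ℂ) ^ k ∂m = 0 ^ k := by
  rcases k with _ | k
  · simp
  · rw [m, integral_map e_cont.aemeasurable (by fun_prop)]
    have h := unitInterval.measurePreserving_coe.integral_comp unitInterval.measurableEmbedding_coe
      (fun x : ℝ => Complex.exp ((((k + 1 : ℕ) : ℂ) * (2 * Real.pi * Complex.I)) * x))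
    have hc : (((k + 1 : ℕ) : ℂ) * (2 * Real.pi * Complex.I)) ≠ 0 :=
      mul_ne_zero (Nat.cast_ne_zero.mpr k.succ_ne_zero) Complex.two_pi_I_ne_zero
    rw [integral_Icc_eq_integral_Ioc, ← intervalIntegral.integral_of_le zero_le_one,
      integral_exp_mul_complex hc] at h
    simp only [Complex.ofReal_one, mul_one, Complex.exp_nat_mul_two_pi_mul_I, Complex.ofReal_zero,
      mul_zero, Complex.exp_zero, sub_self, zero_div] at h
    rw [zero_pow k.succ_ne_zero]
    refine Eq.trans (integral_congr_ae (Eventually.of_forall fun x => ?_)) h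
    simp only [e, ← Complex.exp_nat_mul]
    congr 1
    push_cast
    ring

theorem mean (f : C(S, ℂ)) (hf : f ∈ A) (t : I) : ∫ z, f (z, t) ∂m = f (o, t) := by
  let L : C(S, ℂ) →L[ℂ] ℂ := (intL m).comp
    (ContinuousMap.compCLM ℂ ℂ (⟨fun z => (z, t), by fun_prop⟩ : C(D, S)))
  refine A_ind (LinearMap.eqLocus L.toLinearMap (ContinuousMap.evalCLM ℂ (o, t)).toLinearMap)
    (isClosed_eq L.continuous (continuous_eval_const _)) (fun k j => ?_) f hf
  change ∫ z : D, (z : ℂ) ^ k * ((t : ℝ) : ℂ) ^ j ∂m = (0 : ℂ) ^ k * ((t : ℝ) : ℂ) ^ j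
  rw [integral_mul_const, m_pow]

theorem m_ae : ∀ᵐ z : D ∂m, ‖(z : ℂ)‖ = 1 ∧ (z : ℂ) ≠ 1 := by
  rw [m, ae_map_iff e_cont.aemeasurable (by measurability)]
  have h : ({θ : I | ∃ n : ℤ, (θ : ℝ) = n}).Countable := by
    refine (Set.countable_range (fun n : ℤ => (n : ℝ))).preimage Subtype.val_injective |>.mono ?_
    rintro θ ⟨n, hn⟩
    exact ⟨n, hn.symm⟩
  filter_upwards [h.ae_notMem volume] with θ hθ
  refine ⟨Complex.norm_exp_ofReal_mul_I _, fun h1 => hθ ?_⟩
  obtain ⟨n, hn⟩ := Complex.exp_eq_one_iff.mp h1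
  refine ⟨n, ?_⟩
  have := congrArg Complex.im hn
  simp at this
  have hp := Real.pi_pos
  nlinarith

theorem m_ball (δ : ℝ) (hδ : 0 < δ) : m {z | ‖(z : ℂ) - 1‖ < δ} ≠ 0 := by
  have ho : IsOpen {z : D | ‖(z : ℂ) - 1‖ < δ} := isOpen_lt (by fun_prop) continuous_const
  rw [m, Measure.map_apply e_cont.measurable ho.measurableSet]
  have : e ⁻¹' {z : D | ‖(z : ℂ) - 1‖ < δ} ∈ 𝓝 (⊥ : I) :=
    (ho.preimage e_cont).mem_nhds (by
      change ‖Complex.exp ((2 * Real.pi * (0 : ℝ) : ℝ) * Complex.I) - 1‖ < δ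
      simpa using hδ)
  obtain ⟨x, hx, hx2⟩ := nhds_bot_basis.mem_iff.mp this
  refine fun h => (ENNReal.ofReal_pos.mpr (show (0 : ℝ) < x from hx)).ne' ?_
  rw [← unitInterval.volume_Iio]
  exact measure_mono_null hx2 h

noncomputable def w (z : D) : ℝ≥0 := ‖(z : ℂ) - 1‖₊

theorem w_cont : Continuous w := by
  unfold w
  fun_prop

noncomputable def mw : Measure D := m.withDensity fun z => w z

instance : IsFiniteMeasure mw := by
  refine isFiniteMeasure_withDensity (ne_top_of_le_ne_top (b := ∫⁻ _, 2 ∂m) (by simp)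
    (lintegral_mono fun z => ?_))
  have : w z ≤ 2 := by
    have a := norm_sub_le (z : ℂ) 1
    have b := normD z
    rw [norm_one] at a
    change ‖(z : ℂ) - 1‖ ≤ 2
    linarith
  exact ENNReal.coe_le_coe.mpr this

noncomputable def μ : Measure S := (mw + Measure.dirac o).prod volume

instance : IsFiniteMeasure μ := by unfold μ; infer_instance

def O : Set S := {s | s.1 = o}

theorem O_meas : MeasurableSet O := (isClosed_eq continuous_fst continuous_const).measurableSet

noncomputable def κ (ν : Measure S) : Measure I := (ν.restrict O).map Prod.snd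

instance (ν : Measure S) [IsFiniteMeasure ν] : IsFiniteMeasure (κ ν) := by
  unfold κ; infer_instance

noncomputable def sw (ν : Measure S) : Measure S := ν.restrict Oᶜ + m.prod (κ ν)

instance (ν : Measure S) [IsFiniteMeasure ν] : IsFiniteMeasure (sw ν) := by
  unfold sw; infer_instance

theorem sw_int (ν : Measure S) [IsFiniteMeasure ν] (f : C(S, ℂ)) (hf : f ∈ A) :
    ∫ s, f s ∂(sw ν) = ∫ s, f s ∂ν := by
  rw [sw, integral_add_measure (intg _ f) (intg _ f), integral_prod_symm _ (intg _ f)]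
  simp only [mean f hf]
  rw [κ, integral_map measurable_snd.aemeasurable (by fun_prop),
    ← integral_add_compl O_meas (intg ν f), add_comm]
  congr 1
  refine setIntegral_congr_fun O_meas fun s hs => ?_
  have : s.1 = o := hs
  simp only [← this]

theorem sw_ae (ν : Measure S) [IsFiniteMeasure ν] (h : ν ≪ μ) :
    ∀ᵐ s ∂(sw ν), ‖(s.1 : ℂ)‖ = 1 := by
  rw [sw, ae_add_measure_iff]
  constructor
  · have h1 : ∀ᵐ z ∂(mw + Measure.dirac o), z = o ∨ ‖(z : ℂ)‖ = 1 := by
      rw [ae_add_measure_iff]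
      refine ⟨(withDensity_absolutelyContinuous _ _).ae_le (m_ae.mono fun z hz => Or.inr hz.1), ?_⟩
      simp
    have h2 : ∀ᵐ s ∂μ, s.1 = o ∨ ‖(s.1 : ℂ)‖ = 1 :=
      Measure.quasiMeasurePreserving_fst.ae h1
    filter_upwards [ae_restrict_of_ae (h.ae_le h2), ae_restrict_mem O_meas.compl] with s a b
    exact a.resolve_left b
  · exact Measure.quasiMeasurePreserving_fst.ae (m_ae.mono fun z hz => hz.1)

theorem ext_circle (β β' : Measure S) [IsFiniteMeasure β] [IsFiniteMeasure β']
    (h1 : ∀ᵐ s ∂β, ‖(s.1 : ℂ)‖ = 1) (h2 : ∀ᵐ s ∂β', ‖(s.1 : ℂ)‖ = 1)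
    (h : ∀ f ∈ A, ∫ s, f s ∂β = ∫ s, f s ∂β') : β = β' := by
  let P : Submodule ℂ C(S, ℂ) := LinearMap.eqLocus (intL β).toLinearMap (intL β').toLinearMap
  have hP : IsClosed (P : Set C(S, ℂ)) := isClosed_eq (intL β).continuous (intL β').continuous
  have hsT : star T = T := by ext s; simp [T]
  have red : ∀ (γ : Measure S), (∀ᵐ s ∂γ, ‖(s.1 : ℂ)‖ = 1) → ∀ (c : ℕ) (g : C(S, ℂ)),
      ∫ s, ((Z * star Z) ^ c * g) s ∂γ = ∫ s, g s ∂γ := by
    intro γ hγ c g
    refine integral_congr_ae (hγ.mono fun s hs => ?_)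
    have : (s.1 : ℂ) * (starRingEnd ℂ) s.1 = 1 := by
      rw [Complex.mul_conj, Complex.normSq_eq_norm_sq, hs]; simp
    simp [Z, this]
  have mon : ∀ a b j : ℕ, Z ^ a * star Z ^ b * T ^ j ∈ P := by
    intro a b j
    change ∫ s, (Z ^ a * star Z ^ b * T ^ j) s ∂β = ∫ s, (Z ^ a * star Z ^ b * T ^ j) s ∂β'
    rcases le_total a b with hab | hab
    · obtain ⟨c, rfl⟩ := Nat.exists_eq_add_of_le hab
      have e1 : Z ^ a * star Z ^ (a + c) * T ^ j = (Z * star Z) ^ a * star (Z ^ c * T ^ j) := by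
        rw [star_mul', star_pow, star_pow, hsT]; ring
      rw [e1, red β h1, red β' h2]
      simp only [ContinuousMap.star_apply, ← starRingEnd_apply, integral_conj]
      rw [h _ (mon_mem c j)]
    · obtain ⟨c, rfl⟩ := Nat.exists_eq_add_of_le hab
      have e1 : Z ^ (b + c) * star Z ^ b * T ^ j = (Z * star Z) ^ b * (Z ^ c * T ^ j) := by ring
      rw [e1, red β h1, red β' h2, h _ (mon_mem c j)]
  have sep : (StarAlgebra.adjoin ℂ ({Z, T} : Set C(S, ℂ))).SeparatesPoints := by
    intro x y hxy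
    by_cases h1 : x.1 = y.1
    · refine ⟨_, ⟨T, StarAlgebra.subset_adjoin _ _ (by simp), rfl⟩, fun h2 => hxy ?_⟩
      exact Prod.ext h1 (Subtype.ext (by simpa [T] using h2))
    · exact ⟨_, ⟨Z, StarAlgebra.subset_adjoin _ _ (by simp), rfl⟩, fun h2 => h1 (Subtype.ext h2)⟩
  have top := ContinuousMap.starSubalgebra_topologicalClosure_eq_top_of_separatesPoints _ sep
  have all : ∀ g : C(S, ℂ), g ∈ P := by
    intro g
    have hg : g ∈ (StarAlgebra.adjoin ℂ ({Z, T} : Set C(S, ℂ))).topologicalClosure := by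
      rw [top]; trivial
    have hg' : g ∈ closure
      ((StarAlgebra.adjoin ℂ ({Z, T} : Set C(S, ℂ)) : StarSubalgebra ℂ C(S, ℂ)) : Set C(S, ℂ)) := hg
    refine closure_minimal (fun u hu => ?_) hP hg'
    have h3 : u ∈ Subalgebra.toSubmodule (Algebra.adjoin ℂ ({Z, T} ∪ star {Z, T})) := hu
    rw [Algebra.adjoin_eq_span] at h3
    refine Submodule.span_le.mpr (fun v hv => ?_) h3
    have : ∃ a b j : ℕ, v = Z ^ a * star Z ^ b * T ^ j := by
      induction hv using Submonoid.closure_induction with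
      | mem x hx =>
        simp only [Set.mem_union, Set.mem_insert_iff, Set.mem_singleton_iff, Set.mem_star] at hx
        rcases hx with (rfl | rfl) | (hx | hx)
        · exact ⟨1, 0, 0, by simp⟩
        · exact ⟨0, 0, 1, by simp⟩
        · exact ⟨0, 1, 0, by simp [← hx]⟩
        · exact ⟨0, 0, 1, by rw [← hsT, ← hx]; simp⟩
      | one => exact ⟨0, 0, 0, by simp⟩
      | mul x y _ _ hx hy =>
        obtain ⟨a, b, j, rfl⟩ := hx
        obtain ⟨a', b', j', rfl⟩ := hy
        exact ⟨a + a', b + b', j + j', by ring⟩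
    obtain ⟨a, b, j, rfl⟩ := this
    exact mon a b j
  refine ext_of_forall_integral_eq_of_IsFiniteMeasure fun f => ?_
  have := all ⟨fun s => (f s : ℂ), by fun_prop⟩
  change ∫ s, (f s : ℂ) ∂β = ∫ s, (f s : ℂ) ∂β' at this
  rw [integral_complex_ofReal, integral_complex_ofReal] at this
  exact_mod_cast this

theorem κ_le (ν ν' : Measure S) [IsFiniteMeasure ν] [IsFiniteMeasure ν'] (c : ℝ≥0)
    (h : ν' ≤ c • μ) (hs : sw ν = sw ν') : κ ν ≤ κ ν' := by
  refine Measure.le_iff.mpr fun E hE => ENNReal.le_of_forall_pos_le_add fun ε hε _ => ?_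
  set δ : ℝ≥0 := ε / (c + 1) with hδ
  have δ0 : 0 < δ := by positivity
  set U : Set D := {z | ‖(z : ℂ) - 1‖ < δ} with hU
  have hUm : MeasurableSet U := (isOpen_lt (by fun_prop) continuous_const).measurableSet
  have a1 : μ (U ×ˢ E ∩ Oᶜ) ≤ δ * m U := by
    have b1 : U ×ˢ E ∩ Oᶜ ⊆ (U \ {o}) ×ˢ Set.univ := fun s hs => ⟨⟨hs.1.1, hs.2⟩, trivial⟩
    refine (measure_mono b1).trans ?_
    rw [μ, Measure.prod_prod, measure_univ, mul_one, Measure.add_apply,
      Measure.dirac_apply, Set.indicator_of_notMem (by simp), add_zero]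
    refine (measure_mono Set.sdiff_subset).trans ?_
    rw [mw, withDensity_apply _ hUm, ← setLIntegral_const]
    refine setLIntegral_mono' hUm fun z hz => ?_
    exact ENNReal.coe_le_coe.mpr (le_of_lt hz)
  have a2 : m U * κ ν E ≤ m U * (κ ν' E + ε) := by
    calc m U * κ ν E ≤ sw ν (U ×ˢ E) := by
          rw [sw, Measure.add_apply, Measure.prod_prod]; exact le_add_self
      _ = ν' (U ×ˢ E ∩ Oᶜ) + m U * κ ν' E := by
          rw [hs, sw, Measure.add_apply, Measure.prod_prod,
            Measure.restrict_apply' O_meas.compl]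
      _ ≤ m U * ε + m U * κ ν' E := by
          gcongr
          refine (h _).trans ?_
          rw [Measure.smul_apply, ENNReal.smul_def, smul_eq_mul]
          refine (mul_le_mul_right a1 _).trans ?_
          rw [← mul_assoc, mul_comm]
          gcongr
          have : c * δ ≤ ε := by
            rw [hδ, ← mul_div_assoc, div_le_iff₀ (by positivity)]
            nlinarith
          exact_mod_cast this
      _ = _ := by ring
  exact (ENNReal.mul_le_mul_iff_right (m_ball δ δ0) (measure_ne_top _ _)).mp a2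

theorem uniq (ν : Measure S) [IsFiniteMeasure ν] (c : ℝ≥0) (h : ν ≤ c • μ)
    (hA : ∀ f ∈ A, ∫ s, f s ∂ν = ∫ s, f s ∂μ) : ν = μ := by
  have h1 : sw ν = sw μ := ext_circle _ _
    (sw_ae ν (Measure.absolutelyContinuous_of_le_smul h)) (sw_ae μ Measure.AbsolutelyContinuous.rfl)
    fun f hf => by rw [sw_int ν f hf, sw_int μ f hf, hA f hf]
  have h2 : κ ν = κ μ := le_antisymm (κ_le ν μ 1 (by simp) h1) (κ_le μ ν c h h1.symm)
  have h3 : ν.restrict Oᶜ = μ.restrict Oᶜ := by
    rw [sw, sw, h2] at h1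
    exact (Measure.add_left_inj _ _ _).mp h1
  have h4 : ∀ γ : Measure S, γ.restrict O = (κ γ).map fun t => (o, t) := by
    intro γ
    rw [κ, Measure.map_map (by fun_prop) measurable_snd, Measure.map_congr (g := id),
      Measure.map_id]
    filter_upwards [ae_restrict_mem O_meas] with s hs
    exact Prod.ext (Eq.symm hs) rfl
  rw [← Measure.restrict_add_restrict_compl (μ := ν) O_meas,
    ← Measure.restrict_add_restrict_compl (μ := μ) O_meas, h3, h4, h4, h2]

end Pool.Agent.H.MP_71b3bb_an
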