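import Mathlib
import Pool.Agent.H.MP_71b3bb_an.Meas

set_option autoImplicit false

namespace Pool.Agent.H.MP_71b3bb_an

open scoped unitInterval NNReal ENNReal
open Filter Topology MeasureTheory

theorem cluster {X : Type*} [SeminormedAddCommGroup X] [NormedSpace ℂ X]
    (φ : ℕ → StrongDual ℂ X) (C : ℝ) (hφ : ∀ n, ‖φ n‖ ≤ C) :
    ∃ ψ : StrongDual ℂ X, ∀ x c, Tendsto (fun n => φ n x) atTop (𝓝 c) → ψ x = c := by
  obtain ⟨ψ, -, hψ⟩ := (WeakDual.isCompact_closedBall (0 : StrongDual ℂ X) C).ultrafilter_le_nhds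
    ((hyperfilter ℕ).map fun n => StrongDual.toWeakDual (φ n)) (by
      rw [le_principal_iff]
      exact mem_map.mpr (Eventually.of_forall fun n => mem_closedBall_zero_iff.mpr (hφ n)))
  refine ⟨WeakDual.toStrongDual ψ, fun x c hc => ?_⟩
  have h1 : Tendsto (fun n => φ n x) (hyperfilter ℕ) (𝓝 (ψ x)) :=
    ((WeakDual.eval_continuous x).tendsto ψ).comp hψ
  exact tendsto_nhds_unique h1 (hc.mono_left Nat.hyperfilter_le_atTop)

theorem nonrefl {Y : Type*} [NormedAddCommGroup Y] [NormedSpace ℂ Y] (B : Submodule ℂ Y)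
    (x : ℕ → Y) (φ : ℕ → Y →L[ℂ] ℂ) (C : ℝ) (hx : ∀ N, ‖x N‖ ≤ 1) (hφ : ∀ n, ‖φ n‖ ≤ C)
    (hB : ∀ n, ∀ y ∈ B, φ n y = 0) (h1 : ∀ n, Tendsto (fun N => φ n (x N)) atTop (𝓝 0))
    (h2 : ∀ N, Tendsto (fun n => φ n (x N)) atTop (𝓝 1)) :
    ¬ Function.Surjective (NormedSpace.inclusionInDoubleDual ℂ (Y ⧸ B)) := by
  intro hs
  have C0 : 0 ≤ C := (norm_nonneg _).trans (hφ 0)
  have bd : ∀ n (q : Y ⧸ B), ‖B.liftQ (φ n).toLinearMap (hB n) q‖ ≤ C * ‖q‖ := by
    intro n q
    refine le_of_forall_pos_le_add fun ε hε => ?_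
    obtain ⟨y, rfl, hy⟩ := Submodule.Quotient.norm_mk_lt q (show 0 < ε / (C + 1) by positivity)
    have a : ‖φ n y‖ ≤ C * ‖y‖ := (φ n).le_of_opNorm_le (hφ n) y
    have b : C * (ε / (C + 1)) ≤ ε := by
      rw [← mul_div_assoc, div_le_iff₀ (by positivity)]; nlinarith
    have c := mul_le_mul_of_nonneg_left hy.le C0
    change ‖φ n y‖ ≤ _
    linarith
  let Φ : ℕ → StrongDual ℂ (Y ⧸ B) := fun n =>
    (B.liftQ (φ n).toLinearMap (hB n)).mkContinuous C (bd n)
  obtain ⟨ψ, hψ⟩ := cluster Φ C fun n => LinearMap.mkContinuous_norm_le _ C0 _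
  obtain ⟨Ψ, hΨ⟩ := cluster (fun N => NormedSpace.inclusionInDoubleDual ℂ (Y ⧸ B)
    (Submodule.Quotient.mk (x N))) 1 fun N =>
      (NormedSpace.double_dual_bound ℂ _ _).trans ((Submodule.Quotient.norm_mk_le _ _).trans (hx N))
  obtain ⟨y, rfl⟩ := hs Ψ
  have a : ∀ n, Φ n y = 0 := fun n => hΨ (Φ n) 0 (h1 n)
  have b : ψ y = 0 := hψ y 0 (by simp [a])
  have c : ∀ N, ψ (Submodule.Quotient.mk (x N)) = 1 := fun N => hψ _ 1 (h2 N)
  have d : ψ y = 1 := hΨ ψ 1 (by
    change Tendsto (fun N => ψ (Submodule.Quotient.mk (x N))) _ _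
    simp [c])
  exact zero_ne_one (b.symm.trans d)

open Classical in
noncomputable def G (z : D) : ℂ := if z = o then 1 else -(((w z : ℝ) : ℂ))⁻¹

theorem G_ae : ∀ᵐ z ∂m, z ≠ o ∧ w z • G z = -1 := by
  filter_upwards [m_ae] with z hz
  have h : z ≠ o := by
    rintro rfl
    simpa [o] using hz.1
  have h2 : ((w z : ℝ) : ℂ) ≠ 0 := by simpa [w, sub_eq_zero] using hz.2
  refine ⟨h, ?_⟩
  rw [G, if_neg h, NNReal.smul_def, Complex.real_smul]
  field_simp

theorem G_int (F : D → ℂ) (hF : Integrable F m) :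
    Integrable (fun z => F z * G z) (mw + Measure.dirac o) ∧
      ∫ z, F z * G z ∂(mw + Measure.dirac o) = F o - ∫ z, F z ∂m := by
  have e : (fun z => w z • (F z * G z)) =ᵐ[m] fun z => -F z := by
    filter_upwards [G_ae] with z hz
    rw [← mul_smul_comm, hz.2]
    ring
  have i1 : Integrable (fun z => F z * G z) mw :=
    (integrable_withDensity_iff_integrable_smul w_cont.measurable).mpr (hF.neg.congr e.symm)
  have i2 : Integrable (fun z => F z * G z) (Measure.dirac o) := integrable_dirac enorm_lt_top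
  refine ⟨i1.add_measure i2, ?_⟩
  rw [integral_add_measure i1 i2, integral_dirac, mw,
    integral_withDensity_eq_integral_smul w_cont.measurable, integral_congr_ae e, integral_neg]
  simp [G]
  ring

noncomputable def c (n : ℕ) : I :=
  ⟨1 / (n + 1), by positivity, div_le_one_of_le₀ (by simp) (by positivity)⟩

noncomputable def h (n : ℕ) : I → ℂ := (Set.Iic (c n)).indicator fun _ => (n + 1 : ℂ)

theorem h_int (n : ℕ) : Integrable (h n) := (integrable_const _).indicator measurableSet_Iic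

noncomputable def g (n : ℕ) (s : S) : ℂ := G s.1 * h n s.2

theorem G_int1 : Integrable G (mw + Measure.dirac o) := by
  simpa using (G_int (fun _ => 1) (integrable_const _)).1

theorem g_int (n : ℕ) : Integrable (g n) μ := G_int1.mul_prod (h_int n)

theorem vol_c (n : ℕ) : (volume : Measure I).real (Set.Iic (c n)) = 1 / (n + 1) := by
  rw [Measure.real, unitInterval.volume_Iic, ENNReal.toReal_ofReal (c n).2.1]
  rfl

theorem g_norm (n : ℕ) : ∫ s, ‖g n s‖ ∂μ = ∫ z, ‖G z‖ ∂(mw + Measure.dirac o) := by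
  simp only [g, norm_mul]
  rw [μ, integral_prod_mul (fun z => ‖G z‖) (fun t => ‖h n t‖)]
  have : ∫ t, ‖h n t‖ = 1 := by
    simp only [h, norm_indicator_eq_indicator_norm]
    rw [integral_indicator measurableSet_Iic, setIntegral_const, vol_c]
    have : ‖(n + 1 : ℂ)‖ = n + 1 := by exact_mod_cast Complex.norm_natCast (n + 1)
    rw [this, smul_eq_mul]
    field_simp
  rw [this, mul_one]

theorem g_mul (n : ℕ) (f : C(S, ℂ)) : Integrable (fun s => f s * g n s) μ :=
  (g_int n).bdd_mul f.continuous.aestronglyMeasurable (Eventually.of_forall f.norm_coe_le_norm)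

theorem g_ann (n : ℕ) (f : C(S, ℂ)) (hf : f ∈ A) : ∫ s, f s * g n s ∂μ = 0 := by
  have := g_mul n f
  rw [μ] at this ⊢
  rw [integral_prod_symm _ this]
  have e : ∀ t, ∫ z, f (z, t) * g n (z, t) ∂(mw + Measure.dirac o) = 0 := by
    intro t
    simp only [g, ← mul_assoc]
    rw [integral_mul_const,
      (G_int (fun z => f (z, t)) (intg m ⟨fun z => f (z, t), by fun_prop⟩)).2, mean f hf t]
    simp
  simp [e]

theorem g_conj (n : ℕ) (s : S) : (starRingEnd ℂ) (g n s) = g n s := by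
  rw [g, map_mul]
  congr 1
  · unfold G
    split_ifs <;> simp
  · unfold h Set.indicator
    split_ifs <;> simp

theorem g_ann2 (n : ℕ) (f1 : C(S, ℂ)) (h1 : f1 ∈ A) (f2 : C(S, ℂ)) (h2 : f2 ∈ A) :
    ∫ s, (f1 s + (starRingEnd ℂ) (f2 s)) * g n s ∂μ = 0 := by
  simp only [add_mul]
  have e : ∀ s, (starRingEnd ℂ) (f2 s) * g n s = (starRingEnd ℂ) (f2 s * g n s) := by
    intro s; rw [map_mul, g_conj]
  have i2 : Integrable (fun s => (starRingEnd ℂ) (f2 s) * g n s) μ := g_mul n (star f2)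
  rw [integral_add (g_mul n f1) i2, g_ann n f1 h1]
  simp only [e]
  rw [integral_conj, g_ann n f2 h2]
  simp

theorem box_meas (N : ℕ) : MeasurableSet (({o} : Set D) ×ˢ Set.Iic (c N)) :=
  (measurableSet_singleton o).prod measurableSet_Iic

theorem g_box (n N : ℕ) :
    ∫ s, (({o} : Set D) ×ˢ Set.Iic (c N)).indicator (fun _ => (1 : ℂ)) s * g n s ∂μ =
      (n + 1) / ((max n N : ℕ) + 1) := by
  have e : ∀ s : S, (({o} : Set D) ×ˢ Set.Iic (c N)).indicator (fun _ => (1 : ℂ)) s * g n s =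
      (({o} : Set D).indicator (fun _ => (1 : ℂ)) s.1 * G s.1) *
        (Set.Iic (c (max n N))).indicator (fun _ => (n + 1 : ℂ)) s.2 := by
    intro s
    have hc : s.2 ≤ c (max n N) ↔ s.2 ≤ c n ∧ s.2 ≤ c N := by
      have mono : ∀ a b : ℕ, a ≤ b → c b ≤ c a := fun a b hab =>
        Nat.one_div_le_one_div (α := ℝ) hab
      rcases le_total n N with h | h
      · rw [max_eq_right h]; exact ⟨fun k => ⟨k.trans (mono _ _ h), k⟩, fun k => k.2⟩
      · rw [max_eq_left h]; exact ⟨fun k => ⟨k, k.trans (mono _ _ h)⟩, fun k => k.1⟩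
    by_cases a : s.1 = o <;> by_cases b : s.2 ≤ c n <;> by_cases d : s.2 ≤ c N <;>
      simp [g, h, Set.indicator, a, b, d, hc]
  simp only [e]
  have z0 : ∫ z, ({o} : Set D).indicator (fun _ => (1 : ℂ)) z ∂m = 0 :=
    integral_eq_zero_of_ae (G_ae.mono fun z hz =>
      Set.indicator_of_notMem (s := {o}) (a := z) hz.1 _)
  rw [μ, integral_prod_mul (fun z => ({o} : Set D).indicator (fun _ => (1 : ℂ)) z * G z),
    (G_int _ ((integrable_const _).indicator (measurableSet_singleton o))).2,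
    integral_indicator measurableSet_Iic, setIntegral_const, vol_c, z0]
  generalize max n N = k
  simp
  ring

noncomputable def pair : Lp ℂ ⊤ μ →L[ℂ] Lp ℂ 1 μ →L[ℂ] ℂ :=
  (ContinuousLinearMap.mul ℂ ℂ).lpPairing μ ⊤ 1

theorem pair_eq (F : Lp ℂ ⊤ μ) (u : Lp ℂ 1 μ) : pair F u = ∫ s, F s * u s ∂μ :=
  ContinuousLinearMap.lpPairing_eq_integral _ _ _

theorem pair_g (F : Lp ℂ ⊤ μ) (u : S → ℂ) (hu : F =ᵐ[μ] u) (n : ℕ) :
    pair F ((g_int n).toL1 _) = ∫ s, u s * g n s ∂μ := by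
  rw [pair_eq]
  refine integral_congr_ae ?_
  filter_upwards [hu, (g_int n).coeFn_toL1] with s a b
  rw [a, b]

def B0 : Submodule ℂ (Lp ℂ ⊤ μ) where
  carrier := {F | ∃ f ∈ A, ∃ g ∈ A, F =ᵐ[μ] fun s => f s + (starRingEnd ℂ) (g s)}
  zero_mem' := ⟨0, zero_mem _, 0, zero_mem _, (Lp.coeFn_zero ℂ ⊤ μ).trans
    (Eventually.of_forall fun s => by simp)⟩
  add_mem' := by
    rintro F F' ⟨f, hf, g, hg, h⟩ ⟨f', hf', g', hg', h'⟩
    refine ⟨f + f', add_mem hf hf', g + g', add_mem hg hg', ?_⟩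
    filter_upwards [h, h', Lp.coeFn_add F F'] with s a b d
    rw [d, Pi.add_apply, a, b]
    simp
    ring
  smul_mem' := by
    rintro k F ⟨f, hf, g, hg, h⟩
    refine ⟨k • f, A.smul_mem hf _, (starRingEnd ℂ) k • g, A.smul_mem hg _, ?_⟩
    filter_upwards [h, Lp.coeFn_smul k F] with s a d
    rw [d, Pi.smul_apply, a]
    simp
    ring

noncomputable def TT : Lp ℂ ⊤ μ →L[ℂ] (Lp ℂ 1 μ → ℂ) :=
  ContinuousLinearMap.pi fun u => pair.flip u

noncomputable def B : Submodule ℂ (Lp ℂ ⊤ μ) :=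
  ((B0.map TT.toLinearMap).topologicalClosure).comap TT.toLinearMap

theorem B_closed : IsClosed (B : Set (Lp ℂ ⊤ μ)) :=
  (Submodule.isClosed_topologicalClosure _).preimage TT.continuous

theorem B_eq : (B : Set (Lp ℂ ⊤ μ)) = @closure _ (TopologicalSpace.induced
    (fun (F : Lp ℂ ⊤ μ) (u : Lp ℂ 1 μ) => ∫ s, F s * u s ∂μ) inferInstance) B0 := by
  have : (fun (F : Lp ℂ ⊤ μ) (u : Lp ℂ 1 μ) => ∫ s, F s * u s ∂μ) = TT := by
    ext F u
    exact (pair_eq F u).symm
  ext F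
  rw [this, closure_induced]
  rfl

theorem B_nonrefl :
    ¬ Function.Surjective (NormedSpace.inclusionInDoubleDual ℂ (Lp ℂ ⊤ μ ⧸ B)) := by
  refine nonrefl B (fun N => indicatorConstLp ⊤ (box_meas N) (measure_ne_top _ _) (1 : ℂ))
    (fun n => pair.flip ((g_int n).toL1 _))
    (‖pair.flip‖ * ∫ z, ‖G z‖ ∂(mw + Measure.dirac o)) (fun N => ?_) (fun n => ?_)
    (fun n y hy => ?_) (fun n => ?_) (fun N => ?_)
  · simpa using norm_indicatorConstLp_le (p := ⊤) (hs := box_meas N) (hμs := measure_ne_top μ _)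
      (c := (1 : ℂ))
  · rw [← g_norm n, ← L1.norm_of_fun_eq_integral_norm (g_int n)]
    exact pair.flip.le_opNorm _
  · have hy' : TT y ∈ closure (B0.map TT.toLinearMap : Set (Lp ℂ 1 μ → ℂ)) := hy
    refine closure_minimal (t := {v : Lp ℂ 1 μ → ℂ | v ((g_int n).toL1 _) = 0}) ?_
      (isClosed_eq (continuous_apply _) continuous_const) hy'
    rintro _ ⟨F, ⟨f1, h1, f2, h2, hF⟩, rfl⟩
    exact (pair_g F _ hF n).trans (g_ann2 n f1 h1 f2 h2)
  · simp only [ContinuousLinearMap.flip_apply, pair_g _ _ indicatorConstLp_coeFn, g_box]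
    have := (tendsto_one_div_add_atTop_nhds_zero_nat (𝕜 := ℂ)).const_mul (n + 1 : ℂ)
    rw [mul_zero] at this
    refine this.congr' ?_
    filter_upwards [eventually_ge_atTop n] with N hN
    rw [max_eq_right hN, mul_one_div]
  · simp only [ContinuousLinearMap.flip_apply, pair_g _ _ indicatorConstLp_coeFn, g_box]
    refine tendsto_const_nhds.congr' ?_
    filter_upwards [eventually_ge_atTop N] with n hn
    rw [max_eq_left hn, div_self (Nat.cast_add_one_ne_zero n)]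

end Pool.Agent.H.MP_71b3bb_an
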